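import Pool.Agent.K1H2.UB.Stm

/-! Project UB: the regime of small `|z|`. -/

set_option autoImplicit false

open Finset Pool.Agent.K1H53.BI Pool.Agent.K1H2.UB

namespace Pool.Agent.K1H98.UB

/-- a lattice point in the Euclidean space -/
noncomputable def ev (x : V) : EuclideanSpace ℝ (Fin 3) := WithLp.toLp 2 fun i => (x i : ℝ)

theorem nsq_real (x : V) : (nsq x : ℝ) = ∑ i, (x i : ℝ) ^ 2 := by
  unfold nsq
  push_cast
  refine Finset.sum_congr rfl fun i _ => ?_
  rw [Nat.cast_natAbs]
  push_cast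
  exact sq_abs _

theorem nrm_eq (x : V) : nrm x = ‖ev x‖ := by
  unfold nrm ev
  rw [EuclideanSpace.norm_eq, nsq_real]
  congr 1
  refine Finset.sum_congr rfl fun i _ => ?_
  rw [Real.norm_eq_abs, sq_abs]

theorem ev_add (x y : V) : ev (x + y) = ev x + ev y := by
  unfold ev
  ext i
  simp

theorem ev_sub (x y : V) : ev (x - y) = ev x - ev y := by
  unfold ev
  ext i
  simp

theorem nrm_add_le (x y : V) : nrm (x + y) ≤ nrm x + nrm y := by
  rw [nrm_eq, nrm_eq, nrm_eq, ev_add]
  exact norm_add_le _ _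

theorem nrm_sub_le (x y : V) : nrm (x - y) ≤ nrm x + nrm y := by
  rw [nrm_eq, nrm_eq, nrm_eq, ev_sub]
  exact norm_sub_le _ _

theorem nrm_sub_ge (x y : V) : nrm x - nrm y ≤ nrm (x - y) := by
  rw [nrm_eq, nrm_eq, nrm_eq, ev_sub]
  exact norm_sub_norm_le _ _

theorem nrm_nonneg (x : V) : 0 ≤ nrm x := Real.sqrt_nonneg _

theorem nrm_dir (e : Fin 3 × Bool) : nrm (dir e) = 1 := by
  unfold nrm
  have : nsq (dir e) = 1 := by
    rcases e with ⟨i, b⟩
    fin_cases i <;> cases b <;> simp [nsq, dir, Fin.sum_univ_three, Pi.single_apply]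
  rw [this]
  simp

theorem nrm_neg (x : V) : nrm (-x) = nrm x := by
  unfold nrm nsq
  simp

theorem one_le_nrm {x : V} (hx : x ≠ 0) : 1 ≤ nrm x := by
  unfold nrm
  rw [Real.one_le_sqrt]
  have h : nsq x ≠ 0 := by
    intro h
    apply hx
    unfold nsq at h
    rw [Finset.sum_eq_zero_iff] at h
    funext i
    have := h i (Finset.mem_univ i)
    simpa using this
  exact_mod_cast Nat.one_le_iff_ne_zero.2 h

theorem coord_le (x : V) (i : Fin 3) : |(x i : ℝ)| ≤ nrm x := by
  unfold nrm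
  apply Real.le_sqrt_of_sq_le
  rw [nsq_real, sq_abs]
  exact Finset.single_le_sum (f := fun i => (x i : ℝ) ^ 2) (fun i _ => sq_nonneg _) (Finset.mem_univ i)

theorem nrm_gt {x : V} {N : ℕ} (h : N ^ 2 < nsq x) : (N : ℝ) < nrm x := by
  unfold nrm
  apply Real.lt_sqrt_of_sq_lt
  exact_mod_cast h

set_option maxHeartbeats 1000000 in
theorem t_R2 : S_R2 := by
  rintro ⟨C0, k, hC0, hk⟩ hsh
  have hC4 : C0 ≤ C0 ^ 4 := by
    calc C0 = C0 ^ 1 := (pow_one _).symm
      _ ≤ C0 ^ 4 := pow_le_pow_right₀ hC0 (by norm_num)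
  refine ⟨108 * C0 ^ 4, by linarith, fun N z hN hz hzN => ?_⟩
  have hC00 : 0 < C0 := by linarith
  have hNC : 108 * C0 ≤ N := by linarith
  have hN0 : (0 : ℝ) < N := by linarith
  have hN1 : (108 : ℝ) ≤ N := by linarith
  have hz1 := one_le_nrm hz
  -- the kernel is small far away
  have far : ∀ w : V, 3 / 5 * (N : ℝ) ≤ nrm w → k w ≤ 2 / N := by
    intro w hw
    have hw0 : w ≠ 0 := by
      rintro rfl
      have : nrm (0 : V) = 0 := by simp [nrm, nsq]
      rw [this] at hw
      linarith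
    have hs0 : 0 < nrm w := by linarith
    refine (hk.upp w hw0).trans ?_
    have h1 : 1 / nrm w ≤ 1 / (3 / 5 * (N : ℝ)) := one_div_le_one_div_of_le (by positivity) hw
    have h2 : C0 / nrm w ^ 3 ≤ C0 / (3 / 5 * (N : ℝ)) ^ 3 := by gcongr
    have h3 : C0 / (3 / 5 * (N : ℝ)) ^ 3 ≤ (1 / 3) / N := by
      rw [div_le_div_iff₀ (by positivity) hN0]
      have h4 : 108 * C0 * N ≤ N * N := by nlinarith
      have h5 : (N : ℝ) ≤ N * N := by nlinarith
      have h6 : 0 ≤ C0 * (N : ℝ) := by positivity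
      have h7 : C0 * (N : ℝ) ≤ 9 / 125 * (N : ℝ) ^ 3 := by
        have : (N : ℝ) ^ 3 = N * N * N := by ring
        rw [this]
        nlinarith
      nlinarith
    have h4 : 1 / (3 / 5 * (N : ℝ)) + (1 / 3) / N = 2 / N := by
      field_simp
      norm_num
    linarith
  set u : V → ℝ := fun y => (k (y - z) - 2 / N) / C0 with hu
  have hule : ∀ y, u y ≤ k (y - z) / C0 := by
    intro y
    rw [hu]
    show (k (y - z) - 2 / N) / C0 ≤ k (y - z) / C0
    have : (0 : ℝ) ≤ 2 / N := by positivity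
    gcongr
    linarith
  have hufar : ∀ y, 3 / 5 * (N : ℝ) ≤ nrm (y - z) → u y ≤ 0 := by
    intro y hy
    have := far _ hy
    exact div_nonpos_of_nonpos_of_nonneg (by linarith) hC00.le
  have hout : ∀ x, N ^ 2 < nsq x → u x ≤ 0 := by
    intro x hx
    apply hufar
    have h1 := nrm_gt hx
    have h2 := nrm_sub_ge x z
    linarith
  have hu0 : 2 / (N : ℝ) / C0 ≤ u 0 := by
    rw [hu]
    show 2 / (N : ℝ) / C0 ≤ (k (0 - z) - 2 / N) / C0
    have h1 := hk.low (-z) (neg_ne_zero.2 hz)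
    rw [nrm_neg] at h1
    have h2 : 4 / (N : ℝ) ≤ 1 / nrm z := by
      rw [div_le_div_iff₀ hN0 (by linarith)]
      linarith
    rw [zero_sub]
    have h3 : (2 : ℝ) / N ≤ k (-z) - 2 / N := by
      have : (4 : ℝ) / N = 2 / N + 2 / N := by ring
      linarith
    gcongr
  refine ⟨u, ?_, hout, ?_, ?_, ?_, ?_⟩
  · intro x
    rw [hu]
    show (k (x - z) - 2 / N) / C0 ≤ 1
    rw [div_le_one hC00]
    have h1 := hk.le (x - z)
    have : (0 : ℝ) ≤ 2 / N := by positivity
    linarith
  · intro x hx _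
    have h1 := hk.sub (x - z) (sub_ne_zero.2 hx)
    have e : PP u x = (PP k (x - z) - 2 / N) / C0 := by
      unfold PP
      rw [hu]
      have : ∀ e : Fin 3 × Bool, x + dir e - z = x - z + dir e := fun e => by abel
      simp only [this]
      rw [← Finset.sum_div, Finset.sum_sub_distrib, Finset.sum_const]
      simp only [Finset.card_univ, Fintype.card_prod, Fintype.card_fin, Fintype.card_bool, nsmul_eq_mul]
      push_cast
      ring
    rw [e]
    show (k (x - z) - 2 / N) / C0 ≤ _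
    gcongr
  · intro x hx hux e'
    have hw : x - z ≠ 0 := sub_ne_zero.2 hx
    have hs1 := one_le_nrm hw
    set s := nrm (x - z) with hs
    have hxN : nrm x ≤ N := by
      by_contra h
      have h1 : N ^ 2 < nsq x := by
        by_contra h2
        apply h
        unfold nrm
        rw [Real.sqrt_le_left hN0.le]
        exact_mod_cast not_lt.1 h2
      linarith [hout x h1]
    have hs2 : s ≤ 5 / 4 * N := by
      have := nrm_sub_le x z
      linarith
    obtain ⟨e, he⟩ := hk.inc (x - z) hw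
    refine ⟨e, ?_⟩
    have hs0 : 0 < s := by linarith
    have hd : 1 / (C0 ^ 2 * s ^ 2) ≤ u (x + dir e) - u x := by
      rw [hu]
      show 1 / (C0 ^ 2 * s ^ 2) ≤ (k (x + dir e - z) - 2 / N) / C0 - (k (x - z) - 2 / N) / C0
      have e1 : x + dir e - z = x - z + dir e := by abel
      rw [e1, ← sub_div, le_div_iff₀ hC00]
      calc 1 / (C0 ^ 2 * s ^ 2) * C0 = 1 / (C0 * s ^ 2) := by field_simp
        _ ≤ k (x - z + dir e) - k (x - z) := he
        _ = _ := by ring
    have hd2 : 1 / (C0 ^ 4 * s ^ 4) ≤ (u (x + dir e) - u x) ^ 2 := by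
      calc 1 / (C0 ^ 4 * s ^ 4) = (1 / (C0 ^ 2 * s ^ 2)) ^ 2 := by
            rw [div_pow, one_pow, mul_pow, ← pow_mul, ← pow_mul]
        _ ≤ _ := pow_le_pow_left₀ (by positivity) hd 2
    have hup : u (x + dir e') ≤ 4 / s := by
      refine (hule _).trans ?_
      have e1 : x + dir e' - z = x - z + dir e' := by abel
      rw [e1, div_le_div_iff₀ hC00 hs0]
      by_cases h0 : x - z + dir e' = 0
      · rw [h0]
        have h1 : s = 1 := by
          have : x - z = - dir e' := eq_neg_of_add_eq_zero_left h0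
          rw [hs, this, nrm_neg, nrm_dir]
        have h2 := hk.le 0
        rw [h1]
        linarith
      · have ht1 := one_le_nrm h0
        set t := nrm (x - z + dir e') with ht
        have ht2 : s - 1 ≤ t := by
          have h1 := nrm_sub_ge (x - z) (-dir e')
          rw [nrm_neg, nrm_dir, sub_neg_eq_add] at h1
          exact h1
        have ht3 : s ≤ 2 * t := by linarith
        have ht0 : 0 < t := by linarith
        have h1 := hk.upp _ h0
        rw [← ht] at h1
        have h2 : C0 / t ^ 3 ≤ C0 / t := by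
          apply div_le_div_of_nonneg_left hC00.le ht0
          calc t = t ^ 1 := (pow_one t).symm
            _ ≤ t ^ 3 := pow_le_pow_right₀ ht1 (by norm_num)
        have h3 : 1 / t ≤ C0 / t := by gcongr
        have h4 : k (x - z + dir e') ≤ 2 * (C0 / t) := by linarith
        have h5 : 2 * (C0 / t) * s ≤ 4 * C0 := by
          have : 2 * (C0 / t) * s = 2 * C0 * s / t := by ring
          rw [this, div_le_iff₀ ht0]
          nlinarith
        calc k (x - z + dir e') * s ≤ 2 * (C0 / t) * s := by gcongr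
          _ ≤ 4 * C0 := h5
    have hu3 : u (x + dir e') ^ 3 ≤ 64 / s ^ 3 := by
      rcases le_total (u (x + dir e')) 0 with h | h
      · have h1 : u (x + dir e') ^ 3 ≤ 0 := by
          have : u (x + dir e') ^ 3 = u (x + dir e') * u (x + dir e') ^ 2 := by ring
          rw [this]
          exact mul_nonpos_of_nonpos_of_nonneg h (sq_nonneg _)
        have h2 : 0 ≤ 64 / s ^ 3 := by positivity
        linarith
      · calc u (x + dir e') ^ 3 ≤ (4 / s) ^ 3 := pow_le_pow_left₀ h hup 3
          _ = 64 / s ^ 3 := by rw [div_pow]; norm_num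
    refine hu3.trans ?_
    have hdel : 3 / 4 * (N : ℝ) ≤ N - nrm z := by linarith
    calc 64 / s ^ 3 ≤ 108 * C0 ^ 4 * (3 / 4 * (N : ℝ)) * (1 / (C0 ^ 4 * s ^ 4)) := by
          have e1 : 108 * C0 ^ 4 * (3 / 4 * (N : ℝ)) * (1 / (C0 ^ 4 * s ^ 4)) = 81 * N / s / s ^ 3 := by
            field_simp
            ring
          rw [e1]
          have : 64 ≤ 81 * N / s := by
            rw [le_div_iff₀ hs0]
            nlinarith
          gcongr
      _ ≤ 108 * C0 ^ 4 * (N - nrm z) * (u (x + dir e) - u x) ^ 2 := by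
          have hdel0 : 0 ≤ (N : ℝ) - nrm z := by linarith
          have hdel1 : 0 ≤ 108 * C0 ^ 4 * ((N : ℝ) - nrm z) := by positivity
          gcongr
  · -- the total
    have hN' : ((N : ℝ) - nrm z) / (108 * C0 ^ 4 * N) ≤ 1 / 108 := by
      rw [div_le_div_iff₀ (by positivity) (by norm_num)]
      have h1 : (1 : ℝ) ≤ C0 ^ 4 := one_le_pow₀ hC0
      have h2 : (N : ℝ) ≤ C0 ^ 4 * N := by nlinarith
      nlinarith
    have hsq : ((N : ℝ) - nrm z) ^ 2 / (108 * C0 ^ 4) ≤ N ^ 2 / (108 * C0) := by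
      have h1 : ((N : ℝ) - nrm z) ^ 2 ≤ N ^ 2 := by
        apply pow_le_pow_left₀ <;> linarith
      gcongr
    have hM : ((3 * N / 5 : ℕ) : ℝ) ≤ 3 / 5 * N := by
      have := @Nat.cast_div_le ℝ _ _ _ (3 * N) 5
      push_cast at this ⊢
      linarith
    classical
    set D : Finset V := (((ballF N).erase z).filter (fun y => nrm (y - z) < 3 / 5 * (N : ℝ))).image
      (fun y => y - z) with hD
    have hDp : ∀ w ∈ D, w ≠ 0 ∧ ∀ i, |w i| ≤ ((3 * N / 5 : ℕ) : ℤ) := by
      intro w hw
      rw [hD, Finset.mem_image] at hw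
      obtain ⟨y, hy, rfl⟩ := hw
      rw [Finset.mem_filter, Finset.mem_erase] at hy
      refine ⟨sub_ne_zero.2 hy.1.1, fun i => ?_⟩
      have h1 := coord_le (y - z) i
      have h2 : |(((y - z) i : ℤ) : ℝ)| < 3 / 5 * (N : ℝ) := h1.trans_lt hy.2
      have h3 : ((|(y - z) i| * 5 : ℤ) : ℝ) < ((3 * N : ℤ) : ℝ) := by
        push_cast
        linarith
      have h4 : |(y - z) i| * 5 < 3 * (N : ℤ) := by exact_mod_cast h3
      push_cast
      omega
    obtain ⟨hD1, hD3⟩ := hsh (3 * N / 5) D hDp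
    have hsum : ∑ y ∈ (ballF N).erase z, max (u y) 0 ≤
        ((∑ w ∈ D, 1 / nrm w) + C0 * ∑ w ∈ D, 1 / nrm w ^ 3) / C0 := by
      have e1 : (∑ w ∈ D, 1 / nrm w) + C0 * ∑ w ∈ D, 1 / nrm w ^ 3 =
          ∑ w ∈ D, (1 / nrm w + C0 / nrm w ^ 3) := by
        rw [Finset.sum_add_distrib, Finset.mul_sum]
        congr 1
        refine Finset.sum_congr rfl fun w _ => ?_
        ring
      rw [e1, Finset.sum_div, hD, Finset.sum_image (fun a _ b _ h => sub_left_injective h)]
      rw [← Finset.sum_filter_add_sum_filter_not ((ballF N).erase z)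
        (fun y => nrm (y - z) < 3 / 5 * (N : ℝ)) (fun y => max (u y) 0)]
      have h2 : ∑ y ∈ ((ballF N).erase z).filter (fun y => ¬ nrm (y - z) < 3 / 5 * (N : ℝ)),
          max (u y) 0 = 0 := by
        refine Finset.sum_eq_zero fun y hy => ?_
        rw [Finset.mem_filter, not_lt] at hy
        exact max_eq_right (hufar y hy.2)
      rw [h2, add_zero]
      refine Finset.sum_le_sum fun y hy => ?_
      rw [Finset.mem_filter, Finset.mem_erase] at hy
      have hne := sub_ne_zero.2 hy.1.1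
      have h3 := one_le_nrm hne
      apply max_le
      · refine (hule y).trans ?_
        have := hk.upp _ hne
        gcongr
      · have : 0 < nrm (y - z) := by linarith
        positivity
    have hS1 : 13 * ((3 * N / 5 : ℕ) : ℝ) * (((3 * N / 5 : ℕ) : ℝ) + 1) ≤
        13 * (3 / 5 * N) * (3 / 5 * N + 1) := by gcongr
    have hS3 : 26 * ((3 * N / 5 : ℕ) : ℝ) ≤ 26 * (3 / 5 * N) := by gcongr
    have hpi := Real.pi_gt_d6
    have hrhs : 4 * (3.141592 : ℝ) / 3 * N ^ 3 * (2 / N / C0) * (1 - 1 / 108) ≤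
        4 * Real.pi / 3 * N ^ 3 * u 0 * (1 - (N - nrm z) / (108 * C0 ^ 4 * N)) := by
      have h1 : (0 : ℝ) ≤ 1 - 1 / 108 := by norm_num
      have h2 : 0 ≤ u 0 := le_trans (by positivity) hu0
      have h4 : (1 : ℝ) - 1 / 108 ≤ 1 - (N - nrm z) / (108 * C0 ^ 4 * N) := by linarith
      gcongr
    refine le_trans ?_ hrhs
    have e2 : 4 * (3.141592 : ℝ) / 3 * N ^ 3 * (2 / N / C0) * (1 - 1 / 108) =
        4 * 3.141592 / 3 * 2 * (1 - 1 / 108) * N ^ 2 / C0 := by
      field_simp
    rw [e2]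
    have e3 : (N : ℝ) ^ 2 / (108 * C0) = (N ^ 2 / 108) / C0 := by
      rw [div_div]
    calc ∑ y ∈ (ballF N).erase z, max (u y) 0 + (N - nrm z) ^ 2 / (108 * C0 ^ 4)
        ≤ (13 * (3 / 5 * N) * (3 / 5 * N + 1) + C0 * (26 * (3 / 5 * N))) / C0 + (N ^ 2 / 108) / C0 := by
          refine add_le_add (hsum.trans ?_) (hsq.trans e3.le)
          have h5 := hD1.trans hS1
          have h6 := hD3.trans hS3
          gcongr
      _ = (13 * (3 / 5 * N) * (3 / 5 * N + 1) + C0 * (26 * (3 / 5 * N)) + N ^ 2 / 108) / C0 := by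
          ring
      _ ≤ _ := by
          gcongr
          have h7 : 108 * (C0 * N) ≤ (N : ℝ) * N := by
            rw [← mul_assoc]
            exact mul_le_mul_of_nonneg_right hNC hN0.le
          have h8 : 108 * (N : ℝ) ≤ N * N := mul_le_mul_of_nonneg_right hN1 hN0.le
          have e4 : 13 * (3 / 5 * (N : ℝ)) * (3 / 5 * N + 1) + C0 * (26 * (3 / 5 * N)) + N ^ 2 / 108 =
              117 / 25 * (N * N) + 39 / 5 * N + 78 / 5 * (C0 * N) + 1 / 108 * (N * N) := by ring
          have e5 : 4 * (3.141592 : ℝ) / 3 * 2 * (1 - 1 / 108) * N ^ 2 =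
              4 * (3.141592 : ℝ) / 3 * 2 * (1 - 1 / 108) * (N * N) := by ring
          have h9 : (0 : ℝ) ≤ N * N := by positivity
          rw [e4, e5]
          linarith
  · refine le_trans ?_ hu0
    rw [div_div, div_le_div_iff₀ (by positivity) (by positivity)]
    have h1 : C0 ≤ N := by linarith
    calc 1 * ((N : ℝ) * C0) = N * C0 := one_mul _
      _ ≤ N * N := by gcongr
      _ = (N : ℝ) ^ 2 := by ring
      _ ≤ 2 * (N : ℝ) ^ 2 := by
          have : (0 : ℝ) ≤ (N : ℝ) ^ 2 := by positivity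
          linarith

end Pool.Agent.K1H98.UB
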